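import Pool.Agent.Results.MP_4e3057_lc.NoUniversalLOTS

set_option autoImplicit false

/-!
# The dominating number of LOTS embeddability at successor cardinals

Let `κ` be the successor of an infinite cardinal. If every linearly ordered space of cardinality `κ` has
a LOTS embedding into a member of a family, then the sum of the cardinalities of the members of the
family is at least `2 ^ κ`. So the least size of a dominating family of linearly ordered spaces of
cardinality `κ` is exactly `2 ^ κ`. This was known for `κ ≥ 2 ^ ℵ₀`.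
-/

namespace Pool.Agent.Results.MP_4e3057_lc.DominatingNumber

open Cardinal Set
open Pool.Agent.Results.MP_4e3057_lc.NoUniversalLOTS (IsLOTSEmbedding IsUniversalLOTS)
open Pool.Agent.H458R3.Lots (Car yp Stat mk_car_le clash isLOTSEmbedding_inl)

universe u

section
variable {W : Type u} [LinearOrder W] [WellFoundedLT W]

/-- the closure points of `g` above a given point -/
theorem exists_closed {lam : Cardinal.{u}} (hlam : ℵ₀ ≤ lam)
    (hb : ∀ C : Set W, #C ≤ lam → ∃ b, ∀ c ∈ C, c < b)
    (h1 : ∀ w : W, #(Iio w) ≤ lam) (g : W → W) (a : W) :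
    ∃ c, a < c ∧ ∀ b < c, g b < c := by
  have hG : ∀ d : W, ∃ e, d < e ∧ ∀ b ≤ d, g b < e := by
    intro d
    have h2 : #(Iic d) ≤ lam := by
      rw [← Iio_insert]
      refine (Cardinal.mk_insert_le).trans ?_
      exact (add_le_add_left (h1 d) 1).trans (Cardinal.add_one_eq hlam).le
    have hC : #(insert d (g '' Iic d) : Set W) ≤ lam := by
      refine (Cardinal.mk_insert_le).trans ?_
      exact (add_le_add_left (Cardinal.mk_image_le.trans h2) 1).trans (Cardinal.add_one_eq hlam).le
    obtain ⟨e, he⟩ := hb _ hC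
    exact ⟨e, he d (mem_insert _ _), fun b hbd => he _ (mem_insert_of_mem _ ⟨b, hbd, rfl⟩)⟩
  choose G hG1 hG2 using hG
  let s : ℕ → W := fun n => G^[n] a
  have hs : ∀ n, s (n + 1) = G (s n) := fun n => Function.iterate_succ_apply' _ _ _
  have hne : {c | ∀ n, s n < c}.Nonempty := by
    obtain ⟨c, hc⟩ := hb (range s) ((countable_range _).le_aleph0.trans hlam)
    exact ⟨c, fun n => hc _ ⟨n, rfl⟩⟩
  obtain ⟨c, hc, hmin⟩ : ∃ c ∈ {c | ∀ n, s n < c}, ∀ b < c, b ∉ {c | ∀ n, s n < c} :=
    ⟨wellFounded_lt.min _ hne, wellFounded_lt.min_mem _ hne,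
      fun b hb hmem => wellFounded_lt.not_lt_min _ hmem hb⟩
  refine ⟨c, hc 0, fun b hbc => ?_⟩
  have h2 := hmin b hbc
  simp only [mem_ofPred_eq, not_forall, not_lt] at h2
  obtain ⟨n, hn⟩ := h2
  have h3 := hG2 (s n) b hn
  rw [← hs] at h3
  exact h3.trans (hc _)

/-- Ulam's theorem for successor cardinals: there are disjoint stationary sets indexed by `W`. -/
theorem exists_stat {lam : Cardinal.{u}} (hlam : ℵ₀ ≤ lam)
    (hb : ∀ C : Set W, #C ≤ lam → ∃ b, ∀ c ∈ C, c < b)
    (h1 : ∀ w : W, #(Iio w) ≤ lam) (hW : #W = Order.succ lam) :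
    ∃ T : W → Set W, (∀ i, Stat (T i)) ∧ ∀ i j, i ≠ j → Disjoint (T i) (T j) := by
  classical
  have hinj : ∀ w : W, ∃ e : Iio w → lam.out, Function.Injective e := by
    intro w
    have h2 : #(Iio w) ≤ #(lam.out) := by rw [Cardinal.mk_out]; exact h1 w
    obtain ⟨e⟩ := Cardinal.le_def _ _ |>.1 h2
    exact ⟨e, e.injective⟩
  choose e he using hinj
  let Um : lam.out → W → Set W := fun n a => {b | ∃ h : a < b, e b ⟨a, h⟩ = n}
  have hstat : ∀ a, ∃ n, Stat (Um n a) := by
    intro a
    by_contra hcon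
    push Not at hcon
    have hcon' : ∀ n, ∃ (g : W → W) (a' : W), ∀ c ∈ Um n a, a' < c → ∃ b < c, c ≤ g b := by
      intro n
      have := hcon n
      simp only [Stat, not_forall, not_exists, not_and, not_lt] at this
      obtain ⟨g, a', h⟩ := this
      refine ⟨g, a', fun c hc hac => ?_⟩
      obtain ⟨b, hb', hb''⟩ := h c hc hac
      exact ⟨b, hb', hb''⟩
    choose g a' hg using hcon'
    have hrange : ∀ F : lam.out → W, #(range F) ≤ lam := fun F =>
      Cardinal.mk_range_le.trans (Cardinal.mk_out lam).le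
    have hG : ∀ b, ∃ c, ∀ n, g n b < c := by
      intro b
      obtain ⟨c, hc⟩ := hb (range fun n => g n b) (hrange _)
      exact ⟨c, fun n => hc _ ⟨n, rfl⟩⟩
    choose G hG' using hG
    obtain ⟨a2, ha2⟩ := hb (insert a (range a')) (by
      refine (Cardinal.mk_insert_le).trans ?_
      exact (add_le_add_left (hrange a') 1).trans (Cardinal.add_one_eq hlam).le)
    obtain ⟨c, hc1, hc2⟩ := exists_closed hlam hb h1 G a2
    have hac : a < c := (ha2 a (mem_insert _ _)).trans hc1
    obtain ⟨b, hbc, hb'⟩ := hg (e c ⟨a, hac⟩) c ⟨hac, rfl⟩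
      ((ha2 _ (mem_insert_of_mem _ ⟨_, rfl⟩)).trans hc1)
    exact absurd ((hG' b _).trans (hc2 b hbc)) (not_lt.2 hb')
  choose N hN using hstat
  have hunc : ∃ n, ¬ #(N ⁻¹' {n}) ≤ lam := by
    by_contra hcon
    push Not at hcon
    have h2 : #(Set.univ : Set W) ≤ lam := by
      have h3 : (Set.univ : Set W) = ⋃ n, N ⁻¹' {n} := by
        ext x; simp
      rw [h3]
      refine (Cardinal.mk_iUnion_le_sum_mk).trans ?_
      refine (Cardinal.sum_le_sum _ (fun _ => lam) fun n => hcon n).trans ?_
      rw [Cardinal.sum_const', Cardinal.mk_out, Cardinal.mul_eq_self hlam]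
    obtain ⟨b, hb'⟩ := hb _ h2
    exact lt_irrefl _ (hb' b (mem_univ _))
  obtain ⟨n, hn⟩ := hunc
  have hcard : #W ≤ #(N ⁻¹' {n}) := by
    rw [hW]
    exact Order.succ_le_of_lt (not_le.1 hn)
  obtain ⟨j⟩ := hcard
  refine ⟨fun i => Um n (j i).1, fun i => ?_, fun i i' hne => ?_⟩
  · have h2 : N (j i).1 = n := (j i).2
    have h3 := hN (j i).1
    rw [h2] at h3
    exact h3
  · rw [Set.disjoint_left]
    rintro b ⟨h2, h3⟩ ⟨h4, h5⟩
    have h6 := he b (h3.trans h5.symm)
    have h7 : (j i).1 = (j i').1 := congrArg (fun x : Iio b => x.1) h6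
    exact hne (j.injective (Subtype.ext h7))

end

/-- smaller spaces -/
theorem embed_of_le {I : Type u} {U : I → Type u} [∀ i, LinearOrder (U i)] {κ : Cardinal.{u}}
    (hκ : ℵ₀ ≤ κ)
    (hU : ∀ (L : Type u) [LinearOrder L], #L = κ → ∃ i, ∃ f : L → U i, IsLOTSEmbedding f)
    (L : Type u) [LinearOrder L] (hL : #L ≤ κ) : ∃ i, ∃ f : L → U i, IsLOTSEmbedding f := by
  obtain ⟨i, f, hf⟩ := hU (L ⊕ₗ κ.ord.ToType) (by
    have h1 : #(L ⊕ₗ κ.ord.ToType) = #(L ⊕ κ.ord.ToType) := Cardinal.mk_congr ofLex
    rw [h1, Cardinal.mk_sum, lift_id, lift_id, Cardinal.mk_ord_toType]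
    exact Cardinal.add_eq_right hκ hL)
  exact ⟨i, _, Pool.Agent.H458R3.Lots.IsLOTSEmbedding.comp hf (isLOTSEmbedding_inl L _)⟩

/-- order isomorphisms are LOTS embeddings -/
theorem iso_emb {L K : Type u} [LinearOrder L] [LinearOrder K] (e : L ≃o K) :
    IsLOTSEmbedding e := by
  refine ⟨e.injective, fun x y h => e.monotone h, ?_⟩
  let : TopologicalSpace L := Preorder.topology L
  let : TopologicalSpace K := Preorder.topology K
  have : OrderTopology L := ⟨rfl⟩
  have : OrderTopology K := ⟨rfl⟩
  exact e.continuous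

/-- **The total size of a dominating family.** -/
theorem family_bound {lam : Cardinal.{u}} (hlam : ℵ₀ ≤ lam) {I : Type u} (U : I → Type u)
    [∀ i, LinearOrder (U i)]
    (hU : ∀ (L : Type u) [LinearOrder L], #L = Order.succ lam →
      ∃ i, ∃ f : L → U i, IsLOTSEmbedding f) :
    2 ^ Order.succ lam ≤ Cardinal.sum fun i => #(U i) := by
  classical
  obtain ⟨W, hWo, hWf, hWc, h1, hb⟩ : ∃ (W : Type u) (_ : LinearOrder W), WellFoundedLT W ∧
      #W = Order.succ lam ∧ (∀ w : W, #(Iio w) ≤ lam) ∧
      ∀ C : Set W, #C ≤ lam → ∃ b, ∀ c ∈ C, c < b := by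
    refine ⟨(Order.succ lam).ord.ToType, inferInstance, inferInstance,
      Cardinal.mk_ord_toType _, fun w => ?_, fun C hC => ?_⟩
    · have h2 : #(Iio w) < Order.succ lam := Cardinal.mk_Iio_toType_ord_lt w
      exact Order.lt_succ_iff.1 h2
    · by_contra hcon
      push Not at hcon
      have h2 : IsCofinal C := fun b => by
        obtain ⟨s, hs, hb⟩ := hcon b
        exact ⟨s, hs, hb⟩
      have h3 := Order.cof_le h2
      rw [Ordinal.cof_toType, (isRegular_succ hlam).cof_ord] at h3
      exact absurd (h3.trans hC) (not_le.2 (Order.lt_succ lam))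
  obtain ⟨T, hT, hTd⟩ := exists_stat hlam hb h1 hWc
  have hbc : ∀ C : Set W, C.Countable → ∃ b, ∀ c ∈ C, c < b := fun C hC =>
    hb C (hC.le_aleph0.trans hlam)
  have hsucc : ∀ w : W, ∃ w', w < w' := fun w => by
    obtain ⟨b, hb'⟩ := hbc {w} (countable_singleton _)
    exact ⟨b, hb' w rfl⟩
  choose nx hnx using hsucc
  obtain ⟨d0, _⟩ := hbc ∅ countable_empty
  let s : ℕ → W := fun n => nx^[n] d0
  have hs : ∀ n, s n < s (n + 1) := by
    intro n
    show nx^[n] d0 < nx^[n + 1] d0
    rw [Function.iterate_succ_apply']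
    exact hnx _
  let SS : Set W → Set W := fun A => ⋃ i ∈ A, T i
  have hWinf : ℵ₀ ≤ #W := by rw [hWc]; exact hlam.trans (Order.le_succ lam)
  have hemb : ∀ A : Set W, ∃ i, ∃ f : Car (SS A) (range s) → U i, IsLOTSEmbedding f := by
    intro A
    refine embed_of_le (κ := Order.succ lam) (hlam.trans (Order.le_succ lam)) hU _ ?_
    exact (mk_car_le hWinf).trans hWc.le
  choose i f hf using hemb
  have key : ∀ A A' : Set W, ∀ (j j' : I) (g : Car (SS A) (range s) → U j)
      (g' : Car (SS A') (range s) → U j'), IsLOTSEmbedding g → IsLOTSEmbedding g' →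
      (⟨j, g (yp _ _ ⊤)⟩ : Σ i, U i) = ⟨j', g' (yp _ _ ⊤)⟩ → ∀ x ∈ A, x ∉ A' → False := by
    intro A A' j j' g g' hg hg' heq x hx hx'
    rw [Sigma.mk.injEq] at heq
    obtain ⟨rfl, heq⟩ := heq
    have heq := eq_of_heq heq
    refine clash hbc (countable_range s) d0 ⟨0, rfl⟩ ?_ hg hg' heq (hT x) ?_ ?_
    · rintro _ ⟨n, rfl⟩
      exact ⟨s (n + 1), ⟨n + 1, rfl⟩, hs n⟩
    · exact subset_biUnion_of_mem hx
    · rw [Set.disjoint_left]
      intro y hy hy'
      obtain ⟨k, hk, hyk⟩ := mem_iUnion₂.1 hy'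
      exact Set.disjoint_left.1 (hTd x k (fun h => hx' (h ▸ hk))) hy hyk
  have hinj : Function.Injective fun A : Set W => (⟨i A, f A (yp _ _ ⊤)⟩ : Σ i, U i) := by
    intro A A' heq
    ext x
    constructor
    · intro hx
      by_contra hx'
      exact key A A' _ _ _ _ (hf A) (hf A') heq x hx hx'
    · intro hx
      by_contra hx'
      exact key A' A _ _ _ _ (hf A') (hf A) heq.symm x hx hx'
  have h2 := Cardinal.mk_le_of_injective hinj
  rwa [Cardinal.mk_set, hWc, Cardinal.mk_sigma] at h2

/-- The family `U` dominates the LOTS of cardinality `κ`: every LOTS of cardinality `κ` has a LOTS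
embedding into some member of the family. -/
def Dominates (κ : Cardinal.{u}) {I : Type u} (U : I → Type u) [∀ i, LinearOrder (U i)] : Prop :=
  ∀ (L : Type u) [LinearOrder L], #L = κ → ∃ i, ∃ f : L → U i, IsLOTSEmbedding f

/-- the cardinalities of the dominating families of LOTS of cardinality `κ` -/
def DomCards (κ : Cardinal.{u}) : Set Cardinal.{u} :=
  {μ | ∃ (I : Type u) (U : I → Type u) (_ : ∀ i, LinearOrder (U i)),
    #I = μ ∧ (∀ i, #(U i) = κ) ∧ Dominates κ U}

/-- **The dominating number of LOTS embeddability.** (1) For no uncountable cardinal there is a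
universal LOTS. (2) Let `κ = lam⁺` with `lam` infinite. If every LOTS of cardinality `κ` has a LOTS
embedding into a member of the family `U`, then the sum of the cardinalities of the members of the
family is at least `2 ^ κ`; in particular a LOTS into which every LOTS of cardinality `κ` has a LOTS
embedding has cardinality at least `2 ^ κ`. (3) The least cardinality of a dominating family of LOTS of
cardinality `κ` is exactly `2 ^ κ`. -/
theorem result :
    (∀ κ : Cardinal.{u}, ℵ₀ < κ → ¬ ∃ (U : Type u) (_ : LinearOrder U), IsUniversalLOTS κ U) ∧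
    (∀ lam : Cardinal.{u}, ℵ₀ ≤ lam →
      (∀ (I : Type u) (U : I → Type u) [∀ i, LinearOrder (U i)], Dominates (Order.succ lam) U →
        2 ^ Order.succ lam ≤ Cardinal.sum fun i => #(U i)) ∧
      IsLeast (DomCards (Order.succ lam)) (2 ^ Order.succ lam)) := by
  refine ⟨NoUniversalLOTS.result, fun lam hlam => ⟨fun I U _ hU => family_bound hlam U hU,
    ⟨?_, ?_⟩⟩⟩
  · classical
    let K : Type u := (Order.succ lam).out
    have hK : #K = Order.succ lam := Cardinal.mk_out _
    have hKinf : ℵ₀ ≤ #K := by rw [hK]; exact hlam.trans (Order.le_succ lam)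
    let gr : LinearOrder K → Set (K × K) := fun o => {p | o.le p.1 p.2}
    have hne : Nonempty (LinearOrder K) := ⟨linearOrderOfSTO (WellOrderingRel : K → K → Prop)⟩
    have hgr : Function.Injective gr := by
      intro o o' h
      apply LinearOrder.ext
      intro a b
      have := congrArg (fun s : Set (K × K) => (a, b) ∈ s) h
      exact iff_of_eq this
    refine ⟨Set (K × K), fun _ => K, fun i => Function.invFun gr i, ?_, fun _ => hK, ?_⟩
    · rw [Cardinal.mk_set, Cardinal.mk_prod, lift_id, Cardinal.mul_eq_self hKinf, hK]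
    · intro L _ hL
      have h1 : #L = #K := hL.trans hK.symm
      obtain ⟨e⟩ := Cardinal.eq.1 h1
      let o : LinearOrder K := LinearOrder.lift' e.symm e.symm.injective
      refine ⟨gr o, e, ?_⟩
      have h2 : Function.invFun gr (gr o) = o := Function.leftInverse_invFun hgr o
      show @IsLOTSEmbedding L K _ (Function.invFun gr (gr o)) e
      rw [h2]
      exact @iso_emb L K _ o
        { toEquiv := e
          map_rel_iff' := by
            intro a b
            show e.symm (e a) ≤ e.symm (e b) ↔ a ≤ b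
            rw [e.symm_apply_apply, e.symm_apply_apply] }
  · rintro μ ⟨I, U, _, rfl, hc, hU⟩
    have h1 := family_bound hlam U hU
    have h2 : (Cardinal.sum fun i => #(U i)) = #I * Order.succ lam := by
      have : (fun i => #(U i)) = fun _ : I => Order.succ lam := funext hc
      rw [this, Cardinal.sum_const']
    rw [h2] at h1
    by_contra hlt
    rw [not_le] at hlt
    have h3 : ℵ₀ ≤ (2 : Cardinal.{u}) ^ Order.succ lam :=
      (hlam.trans (Order.le_succ lam)).trans (Cardinal.cantor _).le
    exact absurd h1 (not_le.2 (Cardinal.mul_lt_of_lt h3 hlt (Cardinal.cantor _)))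

end Pool.Agent.Results.MP_4e3057_lc.DominatingNumber
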